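import Pool.Agent.Lib.MP_b066e3_lc.Rank

set_option autoImplicit false

/-! A well-quasi-order on `P` all of whose comparable pairs are comparable in `P`. -/

namespace Pool.Agent.B066

open Set Filter

variable {P : Type} [PartialOrder P]

/-- `A` carries a well-partial-order whose comparable pairs are comparable in `P`. -/
def Good (A : Set P) : Prop := ∃ r : P → P → Prop,
  (∀ a b c, r a b → r b c → r a c) ∧ (∀ a b, r a b → r b a → a = b) ∧
  (∀ a b, r a b → a ≤ b ∨ b ≤ a) ∧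
  ∀ f : ℕ → P, (∀ n, f n ∈ A) → ∃ m n, m < n ∧ r (f m) (f n)

theorem Good.mono {A B : Set P} (h : Good A) (hB : B ⊆ A) : Good B := by
  obtain ⟨r, h1, h2, h3, h4⟩ := h
  exact ⟨r, h1, h2, h3, fun f hf => h4 f fun n => hB (hf n)⟩

theorem good_singleton (a : P) : Good ({a} : Set P) := by
  refine ⟨fun x y => x = y, fun _ _ _ => Eq.trans, fun _ _ h _ => h, fun _ _ h => Or.inl h.le,
    fun f hf => ⟨0, 1, zero_lt_one, ?_⟩⟩
  exact (hf 0).trans (hf 1).symm

theorem good_empty : Good (∅ : Set P) :=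
  ⟨fun x y => x = y, fun _ _ _ => Eq.trans, fun _ _ h _ => h, fun _ _ h => Or.inl h.le,
    fun f hf => (hf 0).elim⟩

theorem Good.union {A B : Set P} (hA : Good A) (hB : Good B) : Good (A ∪ B) := by
  obtain ⟨r, h1, h2, h3, h4⟩ := hA
  obtain ⟨s, k1, k2, k3, k4⟩ := hB
  refine ⟨fun a b => (a ∈ A ∧ b ∈ A ∧ r a b) ∨ (a ∉ A ∧ b ∉ A ∧ s a b), ?_, ?_, ?_, ?_⟩
  · rintro a b c (⟨a1, a2, a3⟩ | ⟨a1, a2, a3⟩) (⟨b1, b2, b3⟩ | ⟨b1, b2, b3⟩)
    · exact Or.inl ⟨a1, b2, h1 _ _ _ a3 b3⟩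
    · exact absurd a2 b1
    · exact absurd b1 a2
    · exact Or.inr ⟨a1, b2, k1 _ _ _ a3 b3⟩
  · rintro a b (⟨a1, a2, a3⟩ | ⟨a1, a2, a3⟩) (⟨b1, b2, b3⟩ | ⟨b1, b2, b3⟩)
    · exact h2 _ _ a3 b3
    · exact absurd a2 b1
    · exact absurd b1 a2
    · exact k2 _ _ a3 b3
  · rintro a b (⟨_, _, a3⟩ | ⟨_, _, a3⟩)
    · exact h3 _ _ a3
    · exact k3 _ _ a3
  · intro f hf
    obtain ⟨g, hg | hg⟩ := Nat.exists_subseq_of_forall_mem_union (s := A) (t := Aᶜ) f
      (fun n => by rw [union_compl_self]; exact mem_univ _)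
    · obtain ⟨m, n, hmn, h⟩ := h4 (fun n => f (g n)) hg
      exact ⟨g m, g n, g.strictMono hmn, Or.inl ⟨hg m, hg n, h⟩⟩
    · obtain ⟨m, n, hmn, h⟩ := k4 (fun n => f (g n)) (fun n => (hf (g n)).resolve_left (hg n))
      exact ⟨g m, g n, g.strictMono hmn, Or.inr ⟨hg m, hg n, h⟩⟩

theorem good_dual (A : Set P) : Good (P := Pᵒᵈ) A ↔ Good (P := P) A := by
  constructor
  · rintro ⟨r, h1, h2, h3, h4⟩
    exact ⟨r, h1, h2, fun a b h => (h3 a b h).symm, h4⟩
  · rintro ⟨r, h1, h2, h3, h4⟩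
    exact ⟨r, h1, h2, fun a b h => (h3 a b h).symm, h4⟩

/-- No strictly decreasing sequence in `C`. -/
def NoDesc (C : Set P) : Prop := ∀ f : ℕ → P, (∀ n, f n ∈ C) → ¬ ∀ n, f (n + 1) < f n

theorem FAC.subseq (hF : FAC P) {C : Set P} (hC : NoDesc C) (f : ℕ → P) (hf : ∀ n, f n ∈ C) :
    ∃ g : ℕ ↪o ℕ, ∀ m n, m < n → f (g m) ≤ f (g n) := by
  obtain ⟨g, h1 | h2⟩ := exists_increasing_or_nonincreasing_subseq (· ≤ ·) f
  · exact ⟨g, h1⟩
  · exfalso
    obtain ⟨g', h3 | h4⟩ := exists_increasing_or_nonincreasing_subseq (· > ·) (fun n => f (g n))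
    · exact hC (fun n => f (g (g' n))) (fun n => hf _) fun n => h3 n (n + 1) (Nat.lt_succ_self n)
    · apply hF.seq (fun n => f (g (g' n)))
      intro m n hmn
      have a := h2 _ _ (g'.strictMono hmn)
      refine ⟨a, fun h => ?_⟩
      rcases h.lt_or_eq with h | h
      · exact h4 m n hmn h
      · exact a h.ge

/-- The families used in the Zorn argument. -/
def Fam (A C : Set P) : Prop := C ⊆ A ∧ NoDesc C ∧
  ∀ a ∈ A, a ∈ dn C → ∃ c ∈ C, a ≤ c ∧ ∀ c' ∈ C, c' < c → c' ≤ a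

/-- End-extension. -/
def EndExt (C C' : Set P) : Prop := C ⊆ C' ∧ ∀ c ∈ C, ∀ c' ∈ C', c' ≤ c → c' ∈ C

theorem FAC.exists_fam (hF : FAC P) (A : Set P) : ∃ C, Fam A C ∧ A ⊆ dn C := by
  classical
  have hz := exists_maximal_of_chains_bounded
    (r := fun C C' : {C // Fam A C} => EndExt C.1 C'.1) ?_ ?_
  · obtain ⟨⟨C, hC⟩, hmax⟩ := hz
    refine ⟨C, hC, ?_⟩
    by_contra hn
    obtain ⟨a0, ha0, ha0'⟩ := not_subset.1 hn
    have hmin : ∃ r0, (r0 ∈ A ∧ r0 ∉ dn C) ∧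
        ∀ a, (a ∈ A ∧ a ∉ dn C) → a ≤ r0 → ∀ c ∈ C, c ≤ r0 → c ≤ a := by
      by_contra hc
      push Not at hc
      have step : ∀ r : {r // r ∈ A ∧ r ∉ dn C}, ∃ a : {r // r ∈ A ∧ r ∉ dn C}, ∃ c : P,
          a.1 ≤ r.1 ∧ c ∈ C ∧ c ≤ r.1 ∧ ¬ c ≤ a.1 := by
        rintro ⟨r, hr⟩
        obtain ⟨a, ha, h1, c, h2, h3, h4⟩ := hc r hr
        exact ⟨⟨a, ha⟩, c, h1, h2, h3, h4⟩
      choose nx e he using step
      let b : ℕ → {r // r ∈ A ∧ r ∉ dn C} := fun n => nx^[n] ⟨a0, ha0, ha0'⟩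
      have hb : ∀ n, b (n + 1) = nx (b n) := fun n => Function.iterate_succ_apply' _ _ _
      have hanti : Antitone fun n => (b n).1 := by
        apply antitone_nat_of_succ_le
        intro n
        rw [hb]; exact (he (b n)).1
      obtain ⟨g, hg⟩ := hF.subseq hC.2.1 (fun n => e (b n)) (fun n => (he (b n)).2.1)
      have hlt : g 0 < g 1 := g.strictMono zero_lt_one
      apply (he (b (g 0))).2.2.2
      rw [← hb]
      exact ((hg 0 1 zero_lt_one).trans (he (b (g 1))).2.2.1).trans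
        (hanti (Nat.succ_le_of_lt hlt))
    obtain ⟨r0, hr0, hr⟩ := hmin
    have hfam : Fam A (insert r0 C) := by
      refine ⟨insert_subset hr0.1 hC.1, ?_, ?_⟩
      · intro f hf hd
        apply hC.2.1 (fun n => f (n + 1)) _ (fun n => hd (n + 1))
        intro n
        rcases hf (n + 1) with h | h
        · rcases hf n with h' | h'
          · have := hd n
            rw [h, h'] at this
            exact absurd this (lt_irrefl _)
          · exfalso
            apply hr0.2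
            exact ⟨f n, h', h ▸ (hd n).le⟩
        · exact h
      · intro a ha had
        by_cases h : a ∈ dn C
        · obtain ⟨c, hc, h1, h2⟩ := hC.2.2 a ha h
          refine ⟨c, Or.inr hc, h1, ?_⟩
          rintro c' (rfl | hc') hlt
          · exact absurd ⟨c, hc, hlt.le⟩ hr0.2
          · exact h2 c' hc' hlt
        · obtain ⟨s, rfl | hs, has⟩ := had
          · refine ⟨s, Or.inl rfl, has, ?_⟩
            rintro c' (rfl | hc') hlt
            · exact absurd hlt (lt_irrefl _)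
            · exact hr a ⟨ha, h⟩ has c' hc' hlt.le
          · exact absurd ⟨s, hs, has⟩ h
    have hext : EndExt C (insert r0 C) := by
      refine ⟨subset_insert _ _, ?_⟩
      rintro c hc c' (rfl | hc') hle
      · exact absurd ⟨c, hc, hle⟩ hr0.2
      · exact hc'
    have := (hmax ⟨_, hfam⟩ hext).1 (mem_insert r0 C)
    exact hr0.2 (subset_dn C this)
  · intro ch hch
    let U : Set P := {p | ∃ C ∈ ch, p ∈ C.1}
    have key : ∀ C ∈ ch, ∀ c ∈ C.1, ∀ c' ∈ U, c' ≤ c → c' ∈ C.1 := by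
      rintro C hC c hc c' ⟨C', hC', hc'⟩ hle
      by_cases e : C = C'
      · rw [e]; exact hc'
      · rcases hch hC hC' e with h | h
        · exact h.2 c hc c' hc' hle
        · exact h.1 hc'
    refine ⟨⟨U, ?_, ?_, ?_⟩, ?_⟩
    · rintro p ⟨C, _, hp⟩
      exact C.2.1 hp
    · intro f hf hd
      obtain ⟨C, hC, h0⟩ := hf 0
      have hanti : StrictAnti f := strictAnti_nat_of_succ_lt hd
      exact C.2.2.1 f (fun n => key C hC _ h0 _ (hf n) (hanti.antitone (Nat.zero_le n))) hd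
    · rintro a ha ⟨s, ⟨C, hC, hs⟩, has⟩
      obtain ⟨c, hc, h1, h2⟩ := C.2.2.2 a ha ⟨s, hs, has⟩
      exact ⟨c, ⟨C, hC, hc⟩, h1, fun c' hc' hlt => h2 c' (key C hC c hc c' hc' hlt.le) hlt⟩
    · intro C hC
      exact ⟨fun p hp => ⟨C, hC, hp⟩, key C hC⟩
  · rintro C1 C2 C3 h1 h2
    refine ⟨h1.1.trans h2.1, fun c hc c' hc' hle => ?_⟩
    exact h1.2 c hc c' (h2.2 c (h1.1 hc) c' hc' hle) hle

theorem FAC.good_of_Iic (hF : FAC P) {A : Set P} (h : ∀ p ∈ A, Good (A ∩ Iic p)) : Good A := by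
  classical
  obtain ⟨C, hC, hA⟩ := hF.exists_fam A
  have ht : ∀ a : P, ∃ c : P, a ∈ A → c ∈ C ∧ a ≤ c ∧ ∀ c' ∈ C, c' < c → c' ≤ a := by
    intro a
    by_cases ha : a ∈ A
    · obtain ⟨c, h1, h2⟩ := hC.2.2 a ha (hA ha)
      exact ⟨c, fun _ => ⟨h1, h2⟩⟩
    · exact ⟨a, fun h => absurd h ha⟩
  choose t ht using ht
  have hr : ∀ p : P, ∃ r : P → P → Prop,
      (∀ a b c, r a b → r b c → r a c) ∧ (∀ a b, r a b → r b a → a = b) ∧
      (∀ a b, r a b → a ≤ b ∨ b ≤ a) ∧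
      (p ∈ A → ∀ f : ℕ → P, (∀ n, f n ∈ A ∩ Iic p) → ∃ m n, m < n ∧ r (f m) (f n)) := by
    intro p
    by_cases hp : p ∈ A
    · obtain ⟨r, h1, h2, h3, h4⟩ := h p hp
      exact ⟨r, h1, h2, h3, fun _ => h4⟩
    · exact ⟨fun x y => x = y, fun _ _ _ => Eq.trans, fun _ _ h _ => h,
        fun _ _ h => Or.inl h.le, fun h => absurd h hp⟩
  choose r r1 r2 r3 r4 using hr
  refine ⟨fun a b => a ∈ A ∧ b ∈ A ∧ ((t a = t b ∧ r (t a) a b) ∨ t a < t b), ?_, ?_, ?_, ?_⟩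
  · rintro a b c ⟨ha, _, h1⟩ ⟨_, hc, h2⟩
    refine ⟨ha, hc, ?_⟩
    rcases h1 with ⟨e1, h1⟩ | h1 <;> rcases h2 with ⟨e2, h2⟩ | h2
    · exact Or.inl ⟨e1.trans e2, r1 _ _ _ _ h1 (e1 ▸ h2)⟩
    · exact Or.inr (e1 ▸ h2)
    · exact Or.inr (e2 ▸ h1)
    · exact Or.inr (h1.trans h2)
  · rintro a b ⟨_, _, h1⟩ ⟨_, _, h2⟩
    rcases h1 with ⟨e1, h1⟩ | h1 <;> rcases h2 with ⟨e2, h2⟩ | h2
    · exact r2 _ _ _ h1 (e1 ▸ h2)
    · exact absurd (e1 ▸ h2) (lt_irrefl _)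
    · exact absurd (e2 ▸ h1) (lt_irrefl _)
    · exact absurd (h1.trans h2) (lt_irrefl _)
  · rintro a b ⟨ha, hb, ⟨_, h1⟩ | h1⟩
    · exact r3 _ _ _ h1
    · exact Or.inl ((ht a ha).2.1.trans ((ht b hb).2.2 _ (ht a ha).1 h1))
  · intro f hf
    obtain ⟨g, hg⟩ := hF.subseq hC.2.1 (fun n => t (f n)) (fun n => (ht _ (hf n)).1)
    by_cases hc : ∃ m n, m < n ∧ t (f (g m)) < t (f (g n))
    · obtain ⟨m, n, hmn, hlt⟩ := hc
      exact ⟨g m, g n, g.strictMono hmn, hf _, hf _, Or.inr hlt⟩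
    · push Not at hc
      have heq : ∀ n, t (f (g n)) = t (f (g 0)) := by
        intro n
        rcases Nat.eq_zero_or_pos n with rfl | hn
        · rfl
        · exact ((hg 0 n hn).eq_of_not_lt (hc 0 n hn)).symm
      obtain ⟨m, n, hmn, hmr⟩ := r4 (t (f (g 0))) (hC.1 (ht _ (hf _)).1) (fun n => f (g n))
        (fun n => ⟨hf _, heq n ▸ (ht _ (hf _)).2.1⟩)
      refine ⟨g m, g n, g.strictMono hmn, hf _, hf _, Or.inl ⟨(heq m).trans (heq n).symm, ?_⟩⟩
      rw [heq m]; exact hmr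

theorem FAC.good_of_Ici (hF : FAC P) {A : Set P} (h : ∀ p ∈ A, Good (A ∩ Ici p)) : Good A := by
  exact (good_dual (P := P) A).1 (FAC.good_of_Iic (P := Pᵒᵈ) hF.dual
    fun p hp => (good_dual (P := P) (A ∩ Ici (OrderDual.ofDual p))).2 (h p hp))

theorem FAC.exists_mid (hF : FAC P) {S : Set P} (hS : ¬ Good S) :
    ∃ m ∈ S, ¬ Good (S ∩ Iic m) ∧ ¬ Good (S ∩ Ici m) := by
  by_contra hc
  push Not at hc
  apply hS
  have h1 : Good {m | m ∈ S ∧ Good (S ∩ Iic m)} := by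
    apply hF.good_of_Iic
    intro p hp
    exact hp.2.mono (inter_subset_inter_left _ fun q hq => hq.1)
  have h2 : Good {m | m ∈ S ∧ Good (S ∩ Ici m)} := by
    apply hF.good_of_Ici
    intro p hp
    exact hp.2.mono (inter_subset_inter_left _ fun q hq => hq.1)
  apply (h1.union h2).mono
  intro m hm
  by_cases h : Good (S ∩ Iic m)
  · exact Or.inl ⟨hm, h⟩
  · exact Or.inr ⟨hm, hc m hm h⟩

/-- The filter of complements of good sets. -/
def coGood (P : Type) [PartialOrder P] : Filter P where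
  sets := {s | Good sᶜ}
  univ_sets := by
    show Good (univᶜ : Set P)
    rw [compl_univ]; exact good_empty
  sets_of_superset := fun {x y} hx hxy => Good.mono hx (compl_subset_compl.2 hxy)
  inter_sets := fun {x y} hx hy => by
    show Good (x ∩ y)ᶜ
    rw [compl_inter]; exact Good.union hx hy

theorem exists_ultra {S : Set P} (hS : ¬ Good S) :
    ∃ W : Ultrafilter P, S ∈ W ∧ ∀ A, Good A → A ∉ W := by
  have hne : (coGood P ⊓ 𝓟 S).NeBot := by
    rw [Filter.neBot_iff, Ne, inf_principal_eq_bot]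
    intro h
    apply hS
    have : Good (Sᶜᶜ) := h
    rwa [compl_compl] at this
  refine ⟨Ultrafilter.of (coGood P ⊓ 𝓟 S), ?_, ?_⟩
  · exact Ultrafilter.of_le _ (mem_inf_of_right (mem_principal_self S))
  · intro A hA hW
    have : Aᶜ ∈ Ultrafilter.of (coGood P ⊓ 𝓟 S) := by
      apply Ultrafilter.of_le
      apply mem_inf_of_left
      show Good (Aᶜᶜ)
      rwa [compl_compl]
    exact (Ultrafilter.compl_mem_iff_notMem.1 this) hW

/-- The lower sets all of whose neighbourhoods leave a set that is not good undecided. -/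
def Y0 (z : Set P) : Prop := IsLowerSet z ∧ ∀ H : Set P, H.Finite →
  ¬ Good {q | (∀ p ∈ H, p ∈ z → ¬ q ≤ p) ∧ ∀ p ∈ H, p ∉ z → ¬ p ≤ q}

theorem exists_Y0 {a b S : Set P} (ha : IsLowerSet a) (hb : IsLowerSet b) (hab : a ⊆ b)
    (hS : S ⊆ b \ a) (hg : ¬ Good S) :
    ∃ z, Y0 z ∧ a ⊆ z ∧ z ⊆ b ∧ (∀ m, S ⊆ Ici m → m ∈ z) ∧ ∀ m, m ∉ a → S ⊆ Iic m → m ∉ z := by
  obtain ⟨W, hSW, hW⟩ := exists_ultra hg
  have both : ∀ m : P, Ici m ∈ W → Iic m ∈ W → False := by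
    intro m h1 h2
    apply hW {m} (good_singleton m)
    have := inter_mem h1 h2
    rwa [Ici_inter_Iic, Icc_self] at this
  refine ⟨a ∪ {p | Ici p ∈ W}, ⟨ha.union ?_, ?_⟩, subset_union_left, union_subset hab ?_, ?_, ?_⟩
  · intro p q hpq hp
    exact mem_of_superset hp (Ici_subset_Ici.2 hpq)
  · intro H hH hgood
    apply hW _ hgood
    have e1 : ∀ᶠ q in (W : Filter P), ∀ p ∈ H, p ∈ a ∪ {p | Ici p ∈ W} → ¬ q ≤ p := by
      rw [eventually_all_finite hH]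
      intro p _
      by_cases hp : p ∈ a ∪ {p | Ici p ∈ W}
      · have : Iic p ∉ W := by
          rcases hp with hp | hp
          · intro h
            obtain ⟨q, hq1, hq2⟩ := W.nonempty_of_mem (inter_mem h hSW)
            exact (hS hq2).2 (ha hq1 hp)
          · exact both p hp
        exact mem_of_superset (Ultrafilter.compl_mem_iff_notMem.2 this) fun q hq _ => hq
      · exact Eventually.of_forall fun q h => absurd h hp
    have e2 : ∀ᶠ q in (W : Filter P), ∀ p ∈ H, p ∉ a ∪ {p | Ici p ∈ W} → ¬ p ≤ q := by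
      rw [eventually_all_finite hH]
      intro p _
      by_cases hp : p ∈ a ∪ {p | Ici p ∈ W}
      · exact Eventually.of_forall fun q h => absurd hp h
      · have : Ici p ∉ W := fun h => hp (Or.inr h)
        exact mem_of_superset (Ultrafilter.compl_mem_iff_notMem.2 this) fun q hq _ => hq
    exact e1.and e2
  · intro p hp
    obtain ⟨q, hq1, hq2⟩ := W.nonempty_of_mem (inter_mem hp hSW)
    exact hb hq1 (hS hq2).1
  · intro m hm
    exact Or.inr (mem_of_superset hSW hm)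
  · rintro m hm h (h' | h')
    · exact hm h'
    · exact both m h' (mem_of_superset hSW h)

theorem Rk.good (R : Rk P) : Good (univ : Set P) := by
  by_contra hg
  have hne : ({o | ∃ z, Y0 z ∧ R.rho z = o} : Set Ordinal.{0}).Nonempty := by
    obtain ⟨z, hz, _⟩ := exists_Y0 (a := ∅) (b := univ) (S := univ) isLowerSet_empty
      isLowerSet_univ (empty_subset _) (by simp) hg
    exact ⟨_, z, hz, rfl⟩
  obtain ⟨o, ⟨z, hz, rfl⟩, hmin⟩ := WellFounded.has_min wellFounded_lt _ hne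
  obtain ⟨H, hH, a1⟩ := R.a1 z hz.1
  obtain ⟨m, hm, g1, g2⟩ := R.fac.exists_mid (hz.2 H hH)
  set S := {q | (∀ p ∈ H, p ∈ z → ¬ q ≤ p) ∧ ∀ p ∈ H, p ∉ z → ¬ p ≤ q} with hSdef
  let a : Set P := dn (H ∩ z)
  let b : Set P := {q | ∀ p ∈ H, p ∉ z → ¬ p ≤ q}
  have hb : IsLowerSet b := fun q q' hqq hq p hp hpz h => hq p hp hpz (h.trans hqq)
  have hab : a ⊆ b := by
    rintro q ⟨s, hs, hqs⟩ p _ hpz h
    exact hpz (hz.1 (h.trans hqs) hs.2)
  have hS : S ⊆ b \ a := by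
    rintro q ⟨h1, h2⟩
    refine ⟨h2, ?_⟩
    rintro ⟨s, hs, hqs⟩
    exact h1 s hs.1 hs.2 hqs
  have hag : ∀ z', a ⊆ z' → z' ⊆ b → Agree H z' z := by
    intro z' h1 h2 p hp
    constructor
    · intro h
      by_contra hn
      exact h2 h p hp hn le_rfl
    · intro h
      exact h1 (subset_dn _ ⟨hp, h⟩)
  by_cases hmz : m ∈ z
  · obtain ⟨z', hz', h1, h2, _, h4⟩ := exists_Y0 (dn_lower _) hb hab
      (inter_subset_left.trans hS) g1
    apply hmin (R.rho z') ⟨z', hz', rfl⟩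
    apply a1 z' hz'.1 (hag z' h1 h2)
    intro e
    exact h4 m (hS hm).2 inter_subset_right (e ▸ hmz)
  · obtain ⟨z', hz', h1, h2, h3, _⟩ := exists_Y0 (dn_lower _) hb hab
      (inter_subset_left.trans hS) g2
    apply hmin (R.rho z') ⟨z', hz', rfl⟩
    apply a1 z' hz'.1 (hag z' h1 h2)
    intro e
    exact hmz (e ▸ h3 m inter_subset_right)

end Pool.Agent.B066
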