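import Pool.Agent.Lib.MP_b066e3_lc.Good

set_option autoImplicit false

/-! The canonical neighbourhoods. -/

namespace Pool.Agent.B066

open Set Filter

variable {P : Type} [PartialOrder P]

/-- A well-partial-order on `P` whose comparable pairs are comparable in `P`. -/
structure Wq (P : Type) [PartialOrder P] where
  r : P → P → Prop
  tr : ∀ a b c, r a b → r b c → r a c
  anti : ∀ a b, r a b → r b a → a = b
  cmp : ∀ a b, r a b → a ≤ b ∨ b ≤ a
  pwo : ∀ f : ℕ → P, ∃ m n, m < n ∧ r (f m) (f n)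

theorem Rk.nonempty_wq (R : Rk P) : Nonempty (Wq P) := by
  obtain ⟨r, h1, h2, h3, h4⟩ := R.good
  exact ⟨⟨r, h1, h2, h3, fun f => h4 f fun _ => mem_univ _⟩⟩

/-- The same relation, on the order dual. -/
def Wq.dual (W : Wq P) : Wq Pᵒᵈ :=
  ⟨W.r, W.tr, W.anti, fun a b h => (W.cmp a b h).symm, W.pwo⟩

/-- The minimal elements of `D`. -/
def Wq.Min (W : Wq P) (D : Set P) : Set P := {a | a ∈ D ∧ ∀ d ∈ D, W.r d a → d = a}

theorem Wq.refl (W : Wq P) (a : P) : W.r a a := by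
  obtain ⟨_, _, _, h⟩ := W.pwo fun _ => a
  exact h

theorem Wq.finite_min (W : Wq P) (D : Set P) : (W.Min D).Finite := by
  by_contra h
  have hinf : (W.Min D).Infinite := h
  let f := hinf.natEmbedding
  obtain ⟨m, n, hmn, hr⟩ := W.pwo fun n => (f n).1
  have := (f n).2.2 _ (f m).2.1 hr
  exact hmn.ne (f.injective (Subtype.ext this))

theorem Wq.exists_min (W : Wq P) {D : Set P} {d : P} (hd : d ∈ D) : ∃ a ∈ W.Min D, W.r a d := by
  by_contra hc
  push Not at hc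
  have step : ∀ e : {e // e ∈ D ∧ W.r e d}, ∃ e' : {e // e ∈ D ∧ W.r e d},
      W.r e'.1 e.1 ∧ e'.1 ≠ e.1 := by
    rintro ⟨e, he, hr⟩
    by_contra hn
    push Not at hn
    exact hc e ⟨he, fun e' he' h => hn ⟨e', he', W.tr _ _ _ h hr⟩ h⟩ hr
  choose nx hnx using step
  let b : ℕ → {e // e ∈ D ∧ W.r e d} := fun n => nx^[n] ⟨d, hd, W.refl d⟩
  have hb : ∀ n, b (n + 1) = nx (b n) := fun n => Function.iterate_succ_apply' _ _ _
  have hdesc : ∀ m n, m ≤ n → W.r (b n).1 (b m).1 := by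
    intro m n hmn
    induction n, hmn using Nat.le_induction with
    | base => exact W.refl _
    | succ n _ ih => rw [hb]; exact W.tr _ _ _ (hnx _).1 ih
  obtain ⟨m, n, hmn, hr⟩ := W.pwo fun n => (b n).1
  have h1 : W.r (b m).1 (b (m + 1)).1 := W.tr _ _ _ hr (hdesc _ _ hmn)
  have h2 := W.anti _ _ (hdesc m (m + 1) (Nat.le_succ m)) h1
  rw [hb] at h2
  exact (hnx _).2 h2

/-- The positive clauses. -/
def Pos (R : Rk P) (W : Wq P) (x z : Set P) : Prop :=
  ∀ K, IsLowerSet K → K ⊆ x → R.Bm (x \ K) → ∃ a ∈ W.Min (x \ K), a ∈ z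

/-- The negative clauses. -/
def Neg (R : Rk P) (W : Wq P) (x z : Set P) : Prop :=
  ∀ K, IsLowerSet K → x ⊆ K → R.Bp (K \ x) → ∃ a ∈ W.Min (K \ x), a ∉ z

omit [PartialOrder P] in
theorem compl_diff_compl' (x K : Set P) : xᶜ \ Kᶜ = K \ x := by
  ext p; simp only [Set.mem_sdiff, mem_compl_iff, not_not]; tauto

omit [PartialOrder P] in
theorem compl_diff_right' (x K : Set P) : xᶜ \ K = Kᶜ \ x := by
  ext p; simp only [Set.mem_sdiff, mem_compl_iff]; tauto

omit [PartialOrder P] in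
theorem diff_compl_left' (x K : Set P) : K \ xᶜ = x \ Kᶜ := by
  ext p; simp only [Set.mem_sdiff, mem_compl_iff, not_not]; tauto

theorem neg_iff (R : Rk P) (W : Wq P) (x z : Set P) :
    Neg R W x z ↔ Pos (P := Pᵒᵈ) R.dual W.dual (xᶜ : Set P) (zᶜ : Set P) := by
  constructor
  · intro h K hK hKx hB
    have e : (xᶜ \ K : Set P) = (Kᶜ \ x : Set P) := compl_diff_right' (P := P) x K
    have hB' : R.Bp (Kᶜ \ x : Set P) := by
      rw [R.bp_iff, ← e]; exact hB
    obtain ⟨a, ha, haz⟩ := h (Kᶜ : Set P) (IsUpperSet.compl (α := P) hK)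
      (subset_compl_comm.1 hKx) hB'
    rw [← e] at ha
    exact ⟨a, ha, haz⟩
  · intro h K hK hxK hB
    have e : (xᶜ \ Kᶜ : Set P) = K \ x := compl_diff_compl' x K
    have hB' : R.dual.Bm (xᶜ \ Kᶜ : Set P) := by
      rw [e]; exact (R.bp_iff _).1 hB
    obtain ⟨a, ha, haz⟩ := h (Kᶜ : Set P) (IsLowerSet.compl (α := P) hK)
      (compl_subset_compl.2 hxK) hB'
    have ha' : a ∈ W.Min (xᶜ \ Kᶜ : Set P) := ha
    rw [e] at ha'
    exact ⟨a, ha', haz⟩

theorem pos_iff (R : Rk P) (W : Wq P) (x z : Set P) :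
    Pos R W x z ↔ Neg (P := Pᵒᵈ) R.dual W.dual (xᶜ : Set P) (zᶜ : Set P) := by
  constructor
  · intro h K hK hKx hB
    have e : (K \ xᶜ : Set P) = (x \ Kᶜ : Set P) := diff_compl_left' (P := P) x K
    have hB' : R.Bm (x \ Kᶜ : Set P) := by
      rw [R.bm_iff, ← e]; exact hB
    obtain ⟨a, ha, haz⟩ := h (Kᶜ : Set P) (IsUpperSet.compl (α := P) hK)
      (compl_subset_comm.1 hKx) hB'
    rw [← e] at ha
    exact ⟨a, ha, fun h' => h' haz⟩
  · intro h K hK hxK hB
    have e : (Kᶜ \ xᶜ : Set P) = x \ K := compl_diff_compl' K x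
    have hB' : R.dual.Bp (Kᶜ \ xᶜ : Set P) := by
      rw [e]; exact (R.bm_iff _).1 hB
    obtain ⟨a, ha, haz⟩ := h (Kᶜ : Set P) (IsLowerSet.compl (α := P) hK)
      (compl_subset_compl.2 hxK) hB'
    have ha' : a ∈ W.Min (Kᶜ \ xᶜ : Set P) := ha
    rw [e] at ha'
    exact ⟨a, ha', not_not.1 haz⟩

theorem pos_self (R : Rk P) (W : Wq P) (x : Set P) : Pos R W x x := by
  intro K _ _ hB
  obtain ⟨d, hd⟩ := hB.1
  obtain ⟨a, ha, _⟩ := W.exists_min hd
  exact ⟨a, ha, ha.1.1⟩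

theorem neg_self (R : Rk P) (W : Wq P) (x : Set P) : Neg R W x x := by
  intro K _ _ hB
  obtain ⟨d, hd⟩ := hB.1
  obtain ⟨a, ha, _⟩ := W.exists_min hd
  exact ⟨a, ha, ha.1.2⟩

theorem rho_lt {R : Rk P} {W : Wq P} {y z : Set P} (hy : IsLowerSet y) (hz : IsLowerSet z)
    (h1 : Pos R W y z) (h2 : Neg R W y z) (hne : z ≠ y) : R.rho z < R.rho y := by
  by_contra hc
  push Not at hc
  have n1 : (y \ (y ∩ z)).Nonempty → R.rho (y ∩ z) < R.rho y := by
    intro hn
    by_contra h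
    push Not at h
    obtain ⟨a, ha, haz⟩ := h1 _ (hy.inter hz) inter_subset_left
      ⟨hn, _, y, hy.inter hz, hy, inter_subset_left, rfl, h⟩
    exact ha.1.2 ⟨ha.1.1, haz⟩
  have n2 : ((y ∪ z) \ y).Nonempty → R.rho (y ∪ z) < R.rho y := by
    intro hn
    by_contra h
    push Not at h
    obtain ⟨a, ha, haz⟩ := h2 _ (hy.union hz) subset_union_left
      ⟨hn, _, y, hy.union hz, hy, subset_union_left, rfl, h⟩
    exact haz (ha.1.1.resolve_left ha.1.2)
  by_cases a1 : y ⊆ z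
  · have e : y ∪ z = z := union_eq_self_of_subset_left a1
    rw [e] at n2
    refine absurd (n2 ?_) (not_lt.2 hc)
    exact nonempty_of_ssubset ⟨a1, fun h => hne (Subset.antisymm h a1)⟩
  · have l1 : R.rho (y ∩ z) < R.rho y := by
      apply n1
      obtain ⟨p, hp, hp'⟩ := not_subset.1 a1
      exact ⟨p, hp, fun h => hp' h.2⟩
    by_cases a2 : z ⊆ y
    · rw [inter_eq_self_of_subset_right a2] at l1
      exact absurd l1 (not_lt.2 hc)
    · have l2 : R.rho (y ∪ z) < R.rho y := by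
        apply n2
        obtain ⟨p, hp, hp'⟩ := not_subset.1 a2
        exact ⟨p, Or.inr hp, hp'⟩
      have := R.s2 hz hy (by rw [inter_comm]; exact l1.le.trans hc)
      rw [union_comm] at this
      exact absurd l2 (not_lt.2 this)

omit [PartialOrder P] in
theorem exists_ultra_finset (P : Type) : ∃ U : Ultrafilter (Finset P),
    ∀ H : Set P, H.Finite → ∀ᶠ j : Finset P in (U : Filter (Finset P)), H ⊆ (j : Set P) := by
  classical
  refine ⟨Ultrafilter.of atTop, fun H hH => ?_⟩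
  apply Ultrafilter.of_le
  filter_upwards [eventually_ge_atTop hH.toFinset] with j hj
  intro p hp
  exact hj (hH.mem_toFinset.2 hp)

theorem main_pos (R : Rk P) (W : Wq P) {y : Set P} (hy : IsLowerSet y) :
    ∃ F : Set P, F.Finite ∧ F ⊆ y ∧ ∀ x, IsLowerSet x → Pos R W x y → Neg R W x y →
      ∀ K, IsLowerSet K → K ⊆ x → R.Bm (x \ K) → ∃ a ∈ W.Min (x \ K), a ∈ dn F := by
  by_contra hc
  push Not at hc
  have hj : ∀ j : Finset P, ∃ x K : Set P, IsLowerSet x ∧ Pos R W x y ∧ Neg R W x y ∧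
      IsLowerSet K ∧ K ⊆ x ∧ R.Bm (x \ K) ∧ ∀ a ∈ W.Min (x \ K), a ∉ dn ((j : Set P) ∩ y) := by
    intro j
    obtain ⟨x, h1, h2, h3, K, h4, h5, h6, h7⟩ :=
      hc ((j : Set P) ∩ y) (j.finite_toSet.inter_of_left _) inter_subset_right
    exact ⟨x, K, h1, h2, h3, h4, h5, h6, h7⟩
  choose x K hx hpos hneg hK hKx hB hmin using hj
  obtain ⟨U, hU⟩ := exists_ultra_finset P
  let xs : Set P := {p | p ∈ y ∧ ∀ᶠ j in (U : Filter (Finset P)), p ∈ x j}
  let Ks : Set P := {p | p ∈ y ∧ ∀ᶠ j in (U : Filter (Finset P)), p ∈ K j}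
  have hxs : IsLowerSet xs := fun p q hqp hp =>
    ⟨hy hqp hp.1, hp.2.mono fun j h => hx j hqp h⟩
  have hKs : IsLowerSet Ks := fun p q hqp hp =>
    ⟨hy hqp hp.1, hp.2.mono fun j h => hK j hqp h⟩
  have hKxs : Ks ⊆ xs := fun p hp => ⟨hp.1, hp.2.mono fun j h => hKx j h⟩
  have step1 : ∀ᶠ j in (U : Filter (Finset P)), xs ⊆ x j := by
    obtain ⟨H, hH, a1⟩ := R.a1 xs hxs
    have e1 : ∀ᶠ j in (U : Filter (Finset P)), ∀ p ∈ H, p ∈ xs → p ∈ x j := by
      rw [eventually_all_finite hH]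
      intro p _
      by_cases hp : p ∈ xs
      · exact hp.2.mono fun j h _ => h
      · exact Eventually.of_forall fun j h => absurd h hp
    filter_upwards [e1] with j hj
    by_contra hn
    obtain ⟨p, hp, hp'⟩ := not_subset.1 hn
    have hlt : R.rho (x j ∩ xs) < R.rho xs := by
      apply a1 _ ((hx j).inter hxs)
      · intro q hq
        exact ⟨fun h => h.2, fun h => ⟨hj q hq h, h⟩⟩
      · intro e
        have : p ∈ x j ∩ xs := by rw [e]; exact hp
        exact hp' this.1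
    obtain ⟨a, ha, hay⟩ := hneg j (x j ∪ xs) ((hx j).union hxs) subset_union_left
      ⟨⟨p, Or.inr hp, hp'⟩, xs, x j ∩ xs, hxs, (hx j).inter hxs, inter_subset_right,
        (by ext q; simp only [Set.mem_sdiff, mem_union, mem_inter_iff]; tauto), hlt.le⟩
    exact hay (ha.1.1.resolve_left ha.1.2).1
  have step2 : ∀ᶠ j in (U : Filter (Finset P)),
      ∀ p ∈ x j, p ∈ y → p ∉ xs → p ∈ dn ((j : Set P) ∩ y) := by
    by_contra hn
    rw [← Ultrafilter.eventually_not] at hn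
    obtain ⟨f, _, hf⟩ := exists_seq_of_forall_finset_exists (fun q => q ∈ y ∧ q ∉ xs)
      (fun q q' => ¬ q ≤ q' ∧ ¬ q' ≤ q) (by
        intro s hs
        have e1 : ∀ᶠ j in (U : Filter (Finset P)), ∀ q ∈ s, q ∉ x j := by
          rw [Finset.eventually_all]
          intro q hq
          rw [Ultrafilter.eventually_not]
          intro h
          exact (hs q hq).2 ⟨(hs q hq).1, h⟩
        obtain ⟨j, ⟨h1, h2⟩, h3⟩ := ((hn.and e1).and (hU s s.finite_toSet)).exists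
        push Not at h1
        obtain ⟨p, p1, p2, p3, p4⟩ := h1
        refine ⟨p, ⟨p2, p3⟩, fun q hq => ⟨fun h => h2 q hq (hx j h p1), fun h => p4 ?_⟩⟩
        exact ⟨q, ⟨h3 hq, (hs q hq).1⟩, h⟩)
    exact R.fac.seq f hf
  have step3 : ∀ᶠ j in (U : Filter (Finset P)), ¬ R.Bm ((x j \ K j) ∩ Ks) := by
    obtain ⟨F, hF, hFK, hna⟩ := R.na hKs
    have e1 : ∀ᶠ j in (U : Filter (Finset P)), ∀ p ∈ F, p ∈ K j := by
      rw [eventually_all_finite hF]
      intro p hp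
      exact (hFK hp).2
    filter_upwards [e1, step1] with j h1 h2
    intro hb
    obtain ⟨p, hp, hp'⟩ := hna _ inter_subset_right (by
      have : Ks \ ((x j \ K j) ∩ Ks) = Ks ∩ K j := by
        ext q
        constructor
        · rintro ⟨q1, q2⟩
          refine ⟨q1, ?_⟩
          by_contra q3
          exact q2 ⟨⟨h2 (hKxs q1), q3⟩, q1⟩
        · rintro ⟨q1, q2⟩
          exact ⟨q1, fun q3 => q3.1.2 q2⟩
      rw [this]
      exact hKs.inter (hK j)) hb
    exact hp'.1.2 (h1 p hp)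
  have step5 : ∀ᶠ j in (U : Filter (Finset P)), ∀ m ∈ W.Min (xs \ Ks), m ∈ x j \ K j := by
    rw [eventually_all_finite (W.finite_min _)]
    intro m hm
    have : ∀ᶠ j in (U : Filter (Finset P)), m ∉ K j := by
      rw [Ultrafilter.eventually_not]
      intro h
      exact hm.1.2 ⟨hm.1.1.1, h⟩
    exact hm.1.1.2.and this
  obtain ⟨j, ⟨⟨⟨s1, s2⟩, s3⟩, s5⟩, s6⟩ :=
    ((((step1.and step2).and step3).and step5).and (hU _ (W.finite_min (xs \ Ks)))).exists
  have s4 : R.Bm ((x j \ K j) \ Ks) := ((hB j).split hKs).resolve_left s3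
  have e : (x j \ K j) \ Ks = x j \ (K j ∪ Ks) := sdiff_sdiff_left
  rw [e] at s4
  obtain ⟨d, hd, hdy⟩ := hpos j _ ((hK j).union hKs) (union_subset (hKx j) (hKxs.trans s1)) s4
  rw [← e] at hd
  have hdn : d ∈ dn ((j : Set P) ∩ y) := by
    by_cases hdx : d ∈ xs
    · obtain ⟨m, hm, hmd⟩ := W.exists_min (D := xs \ Ks) ⟨hdx, hd.1.2⟩
      have := hd.2 m ⟨s5 m hm, hm.1.2⟩ hmd
      rw [← this]
      exact subset_dn _ ⟨s6 hm, hm.1.1.1⟩
    · exact s2 d hd.1.1.1 hdy hdx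
  obtain ⟨a, ha, had⟩ := W.exists_min hd.1.1
  have hna := hmin j a ha
  have hda : d ≤ a := (W.cmp a d had).resolve_left fun h => hna (dn_lower _ h hdn)
  have := hd.2 a ⟨ha.1, fun h => hd.1.2 (hKs hda h)⟩ had
  exact hna (this ▸ hdn)

theorem main_nhds (R : Rk P) (W : Wq P) {y : Set P} (hy : IsLowerSet y) :
    ∃ H : Set P, H.Finite ∧ ∀ z, IsLowerSet z → Agree H z y →
      ∀ x, IsLowerSet x → Pos R W x y → Neg R W x y → Pos R W x z ∧ Neg R W x z := by
  obtain ⟨F, hF, hFy, h1⟩ := main_pos R W hy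
  obtain ⟨G, hG, hGy, h2⟩ := main_pos (P := Pᵒᵈ) R.dual W.dual (y := (yᶜ : Set P))
    (IsLowerSet.compl (α := P) hy)
  refine ⟨F ∪ (G : Set P), hF.union hG, fun z hz hag x hx hp hn => ⟨?_, ?_⟩⟩
  · intro K hK hKx hB
    obtain ⟨a, ha, s, hs, has⟩ := h1 x hx hp hn K hK hKx hB
    exact ⟨a, ha, hz has ((hag s (Or.inl hs)).2 (hFy hs))⟩
  · rw [neg_iff]
    intro K hK hKx hB
    obtain ⟨a, ha, s, hs, has⟩ := h2 (xᶜ : Set P) (IsLowerSet.compl (α := P) hx)
      ((neg_iff R W x y).1 hn) ((pos_iff R W x y).1 hp) K hK hKx hB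
    refine ⟨a, ha, fun haz => hGy hs ?_⟩
    exact (hag s (Or.inr hs)).1 (hz has haz)

/-- The canonical neighbourhoods of the lower sets. -/
theorem Rk.exists_nbhd (R : Rk P) : ∃ U : Set P → Set P → Prop,
    (∀ y, U y y) ∧ (∀ y z w, IsLowerSet z → U y z → U z w → U y w) ∧
    (∀ y z, IsLowerSet y → IsLowerSet z → U y z → z ≠ y → R.rho z < R.rho y) ∧
    ∀ y z, IsLowerSet z → ∃ H : Set P, H.Finite ∧
      ∀ w, IsLowerSet w → Agree H w z → (U y w ↔ U y z) := by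
  obtain ⟨W⟩ := R.nonempty_wq
  refine ⟨fun y z => ∀ x, IsLowerSet x → Pos R W x y → Neg R W x y →
    Pos R W x z ∧ Neg R W x z, ?_, ?_, ?_, ?_⟩
  · exact fun y x _ h1 h2 => ⟨h1, h2⟩
  · intro y z w _ h1 h2 x hx hp hn
    obtain ⟨a, b⟩ := h1 x hx hp hn
    exact h2 x hx a b
  · intro y z hy hz h hne
    obtain ⟨a, b⟩ := h y hy (pos_self R W y) (neg_self R W y)
    exact rho_lt hy hz a b hne
  · intro y z hz
    by_cases h : ∀ x, IsLowerSet x → Pos R W x y → Neg R W x y → Pos R W x z ∧ Neg R W x z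
    · obtain ⟨H, hH, hn⟩ := main_nhds R W hz
      refine ⟨H, hH, fun w hw hag => ⟨fun _ => h, fun _ x hx a b => ?_⟩⟩
      obtain ⟨a', b'⟩ := h x hx a b
      exact hn w hw hag x hx a' b'
    · have h' := h
      simp only [not_forall] at h'
      obtain ⟨x, hx, hp, hn, hbad⟩ := h'
      by_cases c1 : Pos R W x z
      · have c2 : ¬ Neg R W x z := fun c => hbad ⟨c1, c⟩
        simp only [Neg, not_forall] at c2
        obtain ⟨K, hK, hxK, hB, hno⟩ := c2
        refine ⟨_, W.finite_min (K \ x), fun w _ hag => ⟨fun hw => ?_, fun hz' => absurd hz' h⟩⟩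
        obtain ⟨a, ha, haw⟩ := (hw x hx hp hn).2 K hK hxK hB
        exact absurd ⟨a, ha, fun haz => haw ((hag a ha).2 haz)⟩ hno
      · simp only [Pos, not_forall] at c1
        obtain ⟨K, hK, hxK, hB, hno⟩ := c1
        refine ⟨_, W.finite_min (x \ K), fun w _ hag => ⟨fun hw => ?_, fun hz' => absurd hz' h⟩⟩
        obtain ⟨a, ha, haw⟩ := (hw x hx hp hn).1 K hK hxK hB
        exact absurd ⟨a, ha, (hag a ha).1 haw⟩ hno

end Pool.Agent.B066
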