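import Mathlib

set_option autoImplicit false

/-! Rank functions on the lower sets of a poset: supermodularity, finite antichains, barriers. -/

namespace Pool.Agent.B066

open Set

variable {P : Type}

/-- `z` and `x` contain the same points of `H`. -/
def Agree (H : Set P) (z x : Set P) : Prop := ∀ p ∈ H, (p ∈ z ↔ p ∈ x)

theorem Agree.mono {H H' z x : Set P} (h : Agree H z x) (hH : H' ⊆ H) : Agree H' z x :=
  fun p hp => h p (hH hp)

theorem Agree.refl (H x : Set P) : Agree H x x := fun _ _ => Iff.rfl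

theorem Agree.symm {H z x : Set P} (h : Agree H z x) : Agree H x z := fun p hp => (h p hp).symm

theorem Agree.trans {H z x y : Set P} (h : Agree H z x) (h' : Agree H x y) : Agree H z y :=
  fun p hp => (h p hp).trans (h' p hp)

theorem Agree.compl {H z x : Set P} (h : Agree H z x) : Agree H zᶜ xᶜ :=
  fun p hp => not_congr (h p hp)

/-- An abstract Cantor-Bendixson rank on the lower sets of `P`. -/
structure Rk (P : Type) [PartialOrder P] where
  rho : Set P → Ordinal.{0}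
  a1 : ∀ x, IsLowerSet x → ∃ H : Set P, H.Finite ∧
    ∀ z, IsLowerSet z → Agree H z x → z ≠ x → rho z < rho x
  r2 : ∀ x, IsLowerSet x → ∀ β, β < rho x → ∀ H : Set P, H.Finite →
    ∃ z, IsLowerSet z ∧ Agree H z x ∧ z ≠ x ∧ β ≤ rho z

variable [PartialOrder P]

/-- The rank on the order dual. -/
def Rk.dual (R : Rk P) : Rk Pᵒᵈ where
  rho := fun z => R.rho (zᶜ : Set P)
  a1 := by
    intro x hx
    have hx' : IsLowerSet (xᶜ : Set P) := IsUpperSet.compl (α := P) hx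
    obtain ⟨H, hH, h⟩ := R.a1 _ hx'
    refine ⟨H, hH, fun z hz hag hne => ?_⟩
    exact h _ (IsUpperSet.compl (α := P) hz) hag.compl (fun e => hne (compl_injective e))
  r2 := by
    intro x hx β hβ H hH
    have hx' : IsLowerSet (xᶜ : Set P) := IsUpperSet.compl (α := P) hx
    obtain ⟨z, hz, hag, hne, hb⟩ := R.r2 _ hx' β hβ H hH
    refine ⟨(zᶜ : Set P), IsLowerSet.compl (α := P) hz, ?_, ?_, ?_⟩
    · have := hag.compl
      rw [compl_compl] at this
      exact this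
    · intro e
      apply hne
      rw [← e]
      exact (compl_compl z).symm
    · show β ≤ R.rho (zᶜᶜ : Set P)
      rw [compl_compl]; exact hb

theorem Rk.a1' (R : Rk P) (x : Set P) (hx : IsLowerSet x) : ∃ H : Set P, H.Finite ∧
    ∀ z, IsLowerSet z → Agree H z x → R.rho z ≤ R.rho x ∧ (z ≠ x → R.rho z < R.rho x) := by
  obtain ⟨H, hH, h⟩ := R.a1 x hx
  refine ⟨H, hH, fun z hz hag => ⟨?_, h z hz hag⟩⟩
  by_cases e : z = x
  · rw [e]
  · exact (h z hz hag e).le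

theorem cancel_aux {K J J' : Set P} (h1 : K ∪ J' = K ∪ J) (h2 : K ∩ J' = K ∩ J) : J' = J := by
  ext p
  have a := Set.ext_iff.1 h1 p
  have b := Set.ext_iff.1 h2 p
  simp only [mem_union, mem_inter_iff] at a b
  tauto

theorem Rk.supermod (R : Rk P) : ∀ (t : Ordinal.{0} × Ordinal.{0}) (K J : Set P),
    IsLowerSet K → IsLowerSet J → t = (R.rho (K ∪ J), R.rho (K ∩ J)) →
    R.rho (K ∪ J) ≤ R.rho K → R.rho (K ∩ J) ≤ R.rho J →
    (R.rho (K ∪ J) < R.rho K ∨ R.rho (K ∩ J) < R.rho J) → False := by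
  intro t
  induction t using WellFoundedLT.induction with
  | ind t ih =>
  intro K J hK hJ ht h1 h2 h3
  obtain ⟨H1, hH1, a1⟩ := R.a1' _ (hK.union hJ)
  obtain ⟨H2, hH2, a2⟩ := R.a1' _ (hK.inter hJ)
  rcases h3 with h3 | h3
  · obtain ⟨K', hK', hag, hne, hb⟩ := R.r2 K hK _ h3 (H1 ∪ H2) (hH1.union hH2)
    have g1 : Agree H1 (K' ∪ J) (K ∪ J) := fun p hp => or_congr (hag p (Or.inl hp)) Iff.rfl
    have g2 : Agree H2 (K' ∩ J) (K ∩ J) := fun p hp => and_congr (hag p (Or.inr hp)) Iff.rfl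
    obtain ⟨l1, s1⟩ := a1 _ (hK'.union hJ) g1
    obtain ⟨l2, s2⟩ := a2 _ (hK'.inter hJ) g2
    have hs : R.rho (K' ∪ J) < R.rho (K ∪ J) ∨ R.rho (K' ∩ J) < R.rho (K ∩ J) := by
      by_cases e1 : K' ∪ J = K ∪ J
      · right
        apply s2
        intro e2
        apply hne
        apply cancel_aux (K := J)
        · rw [union_comm, e1, union_comm]
        · rw [inter_comm, e2, inter_comm]
      · exact Or.inl (s1 e1)
    refine ih (R.rho (K' ∪ J), R.rho (K' ∩ J)) ?_ K' J hK' hJ rfl (l1.trans hb) (l2.trans h2) ?_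
    · rw [ht, Prod.lt_iff]
      rcases hs with hs | hs
      · exact Or.inl ⟨hs, l2⟩
      · exact Or.inr ⟨l1, hs⟩
    · rcases hs with hs | hs
      · exact Or.inl (hs.trans_le hb)
      · exact Or.inr (hs.trans_le h2)
  · obtain ⟨J', hJ', hag, hne, hb⟩ := R.r2 J hJ _ h3 (H1 ∪ H2) (hH1.union hH2)
    have g1 : Agree H1 (K ∪ J') (K ∪ J) := fun p hp => or_congr Iff.rfl (hag p (Or.inl hp))
    have g2 : Agree H2 (K ∩ J') (K ∩ J) := fun p hp => and_congr Iff.rfl (hag p (Or.inr hp))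
    obtain ⟨l1, s1⟩ := a1 _ (hK.union hJ') g1
    obtain ⟨l2, s2⟩ := a2 _ (hK.inter hJ') g2
    have hs : R.rho (K ∪ J') < R.rho (K ∪ J) ∨ R.rho (K ∩ J') < R.rho (K ∩ J) := by
      by_cases e1 : K ∪ J' = K ∪ J
      · right
        apply s2
        intro e2
        exact hne (cancel_aux e1 e2)
      · exact Or.inl (s1 e1)
    refine ih (R.rho (K ∪ J'), R.rho (K ∩ J')) ?_ K J' hK hJ' rfl (l1.trans h1) (l2.trans hb) ?_
    · rw [ht, Prod.lt_iff]
      rcases hs with hs | hs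
      · exact Or.inl ⟨hs, l2⟩
      · exact Or.inr ⟨l1, hs⟩
    · rcases hs with hs | hs
      · exact Or.inl (hs.trans_le h1)
      · exact Or.inr (hs.trans_le hb)

theorem Rk.s1 (R : Rk P) {K J : Set P} (hK : IsLowerSet K) (hJ : IsLowerSet J)
    (h : R.rho (K ∪ J) ≤ R.rho K) : R.rho J ≤ R.rho (K ∩ J) := by
  by_contra hc
  push Not at hc
  exact R.supermod _ K J hK hJ rfl h hc.le (Or.inr hc)

theorem Rk.s2 (R : Rk P) {K J : Set P} (hK : IsLowerSet K) (hJ : IsLowerSet J)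
    (h : R.rho (K ∩ J) ≤ R.rho K) : R.rho J ≤ R.rho (K ∪ J) := by
  by_contra hc
  push Not at hc
  refine R.supermod _ J K hJ hK rfl ?_ ?_ ?_
  · rw [union_comm]; exact hc.le
  · rw [inter_comm]; exact h
  · left; rw [union_comm]; exact hc

/-- The down-closure of a set. -/
def dn (S : Set P) : Set P := {p | ∃ s ∈ S, p ≤ s}

theorem dn_lower (S : Set P) : IsLowerSet (dn S) := by
  rintro a b hab ⟨s, hs, h⟩
  exact ⟨s, hs, hab.trans h⟩

theorem subset_dn (S : Set P) : S ⊆ dn S := fun s hs => ⟨s, hs, le_rfl⟩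

theorem dn_subset {S w : Set P} (hw : IsLowerSet w) (h : S ⊆ w) : dn S ⊆ w := by
  rintro p ⟨s, hs, hp⟩
  exact hw hp (h hs)

/-- All antichains are finite. -/
def FAC (P : Type) [PartialOrder P] : Prop := ∀ A : Set P, IsAntichain (· ≤ ·) A → A.Finite

theorem FAC.dual (h : FAC P) : FAC Pᵒᵈ := by
  intro A hA
  apply h A
  intro a ha b hb hne hab
  exact hA hb ha (fun e => hne e.symm) hab

theorem FAC.seq (h : FAC P) (f : ℕ → P) (hf : ∀ m n, m < n → ¬ f m ≤ f n ∧ ¬ f n ≤ f m) :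
    False := by
  have hinj : Function.Injective f := by
    intro m n e
    rcases lt_trichotomy m n with hl | hl | hl
    · exact absurd e.le (hf m n hl).1
    · exact hl
    · exact absurd e.le (hf n m hl).2
  refine Set.infinite_range_of_injective hinj (h _ ?_)
  rintro _ ⟨m, rfl⟩ _ ⟨n, rfl⟩ hne
  rcases lt_trichotomy m n with hl | hl | hl
  · exact (hf m n hl).1
  · exact absurd (congrArg f hl) hne
  · exact (hf n m hl).2

theorem Rk.fac (R : Rk P) : FAC P := by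
  classical
  intro A hA
  by_contra hinf
  have hne : ({o | ∃ S ⊆ A, S.Infinite ∧ R.rho (dn S) = o} : Set Ordinal.{0}).Nonempty :=
    ⟨_, A, Subset.rfl, hinf, rfl⟩
  obtain ⟨o, ⟨S, hSA, hS, rfl⟩, hmin⟩ := WellFounded.has_min wellFounded_lt _ hne
  obtain ⟨H, hH, a1⟩ := R.a1 _ (dn_lower S)
  have hw : ∀ p : P, ∃ s : P, p ∈ dn S → s ∈ S ∧ p ≤ s := by
    intro p
    by_cases hp : p ∈ dn S
    · obtain ⟨s, hs, h⟩ := hp
      exact ⟨s, fun _ => ⟨hs, h⟩⟩
    · exact ⟨p, fun h => absurd h hp⟩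
  choose w hw using hw
  obtain ⟨a, haS, ha⟩ := (hS.diff (hH.image w)).nonempty
  apply hmin (R.rho (dn (S \ {a}))) ⟨S \ {a}, diff_subset.trans hSA, hS.diff (finite_singleton a), rfl⟩
  apply a1 _ (dn_lower _)
  · intro p hp
    constructor
    · rintro ⟨s, hs, h⟩
      exact ⟨s, hs.1, h⟩
    · intro h
      refine ⟨w p, ⟨(hw p h).1, ?_⟩, (hw p h).2⟩
      intro e
      apply ha
      exact ⟨p, hp, e⟩
  · intro e
    have : a ∈ dn (S \ {a}) := by rw [e]; exact subset_dn S haS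
    obtain ⟨s, hs, h⟩ := this
    exact hA (hSA haS) (hSA hs.1) (fun e => hs.2 e.symm) h

/-- Negative barriers. -/
def Rk.Bm (R : Rk P) (D : Set P) : Prop :=
  D.Nonempty ∧ ∃ K T, IsLowerSet K ∧ IsLowerSet T ∧ K ⊆ T ∧ D = T \ K ∧ R.rho T ≤ R.rho K

/-- Positive barriers. -/
def Rk.Bp (R : Rk P) (D : Set P) : Prop :=
  D.Nonempty ∧ ∃ K T, IsLowerSet K ∧ IsLowerSet T ∧ T ⊆ K ∧ D = K \ T ∧ R.rho T ≤ R.rho K

theorem Rk.bp_iff (R : Rk P) (D : Set P) : R.Bp D ↔ R.dual.Bm D := by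
  constructor
  · rintro ⟨hD, K, T, hK, hT, hTK, e, h⟩
    refine ⟨hD, (Kᶜ : Set P), (Tᶜ : Set P), IsLowerSet.compl (α := P) hK,
      IsLowerSet.compl (α := P) hT, compl_subset_compl.2 hTK, ?_, ?_⟩
    · rw [e]; ext p; exact ⟨fun h => ⟨h.2, fun h' => h' h.1⟩, fun h => ⟨not_not.1 h.2, h.1⟩⟩
    · show R.rho (Tᶜᶜ : Set P) ≤ R.rho (Kᶜᶜ : Set P)
      rw [compl_compl, compl_compl]; exact h
  · rintro ⟨hD, K, T, hK, hT, hTK, e, h⟩
    refine ⟨hD, (Kᶜ : Set P), (Tᶜ : Set P), IsUpperSet.compl (α := P) hK,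
      IsUpperSet.compl (α := P) hT, compl_subset_compl.2 hTK, ?_, h⟩
    rw [e]; ext p; exact ⟨fun h => ⟨h.2, fun h' => h' h.1⟩, fun h => ⟨not_not.1 h.2, h.1⟩⟩

theorem Rk.bm_iff (R : Rk P) (D : Set P) : R.Bm D ↔ R.dual.Bp D := by
  constructor
  · rintro ⟨hD, K, T, hK, hT, hTK, e, h⟩
    refine ⟨hD, (Kᶜ : Set P), (Tᶜ : Set P), IsLowerSet.compl (α := P) hK,
      IsLowerSet.compl (α := P) hT, compl_subset_compl.2 hTK, ?_, ?_⟩
    · rw [e]; ext p; exact ⟨fun h => ⟨h.2, fun h' => h' h.1⟩, fun h => ⟨not_not.1 h.2, h.1⟩⟩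
    · show R.rho (Tᶜᶜ : Set P) ≤ R.rho (Kᶜᶜ : Set P)
      rw [compl_compl, compl_compl]; exact h
  · rintro ⟨hD, K, T, hK, hT, hTK, e, h⟩
    refine ⟨hD, (Kᶜ : Set P), (Tᶜ : Set P), IsUpperSet.compl (α := P) hK,
      IsUpperSet.compl (α := P) hT, compl_subset_compl.2 hTK, ?_, h⟩
    rw [e]; ext p; exact ⟨fun h => ⟨h.2, fun h' => h' h.1⟩, fun h => ⟨not_not.1 h.2, h.1⟩⟩

theorem Rk.Bm.mono {R : Rk P} {D : Set P} (h : R.Bm D) : R.rho (dn D) ≤ R.rho (dn D \ D) := by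
  obtain ⟨_, K, T, hK, hT, hKT, e, h⟩ := h
  have hJ : dn D ⊆ T := dn_subset hT (by rw [e]; exact diff_subset)
  have e1 : K ∪ dn D = T := by
    apply Subset.antisymm (union_subset hKT hJ)
    intro p hp
    by_cases hpK : p ∈ K
    · exact Or.inl hpK
    · exact Or.inr (subset_dn D (by rw [e]; exact ⟨hp, hpK⟩))
  have e2 : K ∩ dn D = dn D \ D := by
    ext p
    constructor
    · rintro ⟨h1, h2⟩
      refine ⟨h2, fun h3 => ?_⟩
      rw [e] at h3
      exact h3.2 h1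
    · rintro ⟨h1, h2⟩
      refine ⟨?_, h1⟩
      by_contra h3
      apply h2
      rw [e]
      exact ⟨hJ h1, h3⟩
  rw [← e2]
  apply R.s1 hK (dn_lower D)
  rw [e1]; exact h

theorem Rk.Bm.split {R : Rk P} {D E : Set P} (h : R.Bm D) (hE : IsLowerSet E) :
    R.Bm (D ∩ E) ∨ R.Bm (D \ E) := by
  by_cases h1 : (D ∩ E).Nonempty
  swap
  · right
    have : D \ E = D := by
      ext p
      exact ⟨fun h => h.1, fun h => ⟨h, fun h' => h1 ⟨p, h, h'⟩⟩⟩
    rw [this]; exact h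
  by_cases h2 : (D \ E).Nonempty
  swap
  · left
    have : D ∩ E = D := by
      ext p
      exact ⟨fun h => h.1, fun h => ⟨h, by_contra fun h' => h2 ⟨p, h, h'⟩⟩⟩
    rw [this]; exact h
  obtain ⟨_, K, T, hK, hT, hKT, e, h⟩ := h
  have hM : IsLowerSet (K ∪ T ∩ E) := hK.union (hT.inter hE)
  by_cases h3 : R.rho (K ∪ T ∩ E) ≤ R.rho K
  · left
    refine ⟨h1, K, _, hK, hM, subset_union_left, ?_, h3⟩
    rw [e]; ext p; simp only [mem_inter_iff, mem_diff, mem_union]; tauto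
  · right
    push Not at h3
    refine ⟨h2, _, T, hM, hT, union_subset hKT inter_subset_left, ?_, h.trans h3.le⟩
    rw [e]; ext p; simp only [mem_inter_iff, mem_diff, mem_union]; tauto

/-- Under FAC, the down-closures of the relatively upper subsets of a lower set are finitely many. -/
theorem FAC.finite_dn (hF : FAC P) {w : Set P} (hw : IsLowerSet w) :
    {L | ∃ U, U ⊆ w ∧ IsLowerSet (w \ U) ∧ L = dn U}.Finite := by
  classical
  let Dir : Set P := {a | a ∈ w ∧ ∀ b ∈ w, ∀ c ∈ w, a ≤ b → a ≤ c → ∃ d ∈ w, b ≤ d ∧ c ≤ d}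
  have cof : ∀ a ∈ w, ∃ a' ∈ Dir, a ≤ a' := by
    intro a ha
    by_contra hc
    push Not at hc
    have step : ∀ b : {b // b ∈ w ∧ a ≤ b}, ∃ c : P, ∃ c' : {b // b ∈ w ∧ a ≤ b},
        c ∈ w ∧ b.1 ≤ c ∧ b.1 ≤ c'.1 ∧ ∀ d ∈ w, c ≤ d → ¬ c'.1 ≤ d := by
      rintro ⟨b, hb, hab⟩
      have hnb : b ∉ Dir := fun h => hc b h hab
      simp only [Dir, mem_setOf_eq, not_and, not_forall] at hnb
      obtain ⟨c, hc1, c', hc2, h1, h2, h3⟩ := hnb hb
      push Not at h3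
      exact ⟨c, ⟨c', hc2, hab.trans h2⟩, hc1, h1, h2, h3⟩
    choose e nx he using step
    let b : ℕ → {b // b ∈ w ∧ a ≤ b} := fun n => nx^[n] ⟨a, ha, le_rfl⟩
    have hb : ∀ n, b (n + 1) = nx (b n) := fun n => Function.iterate_succ_apply' _ _ _
    have hmono : Monotone fun n => (b n).1 := by
      apply monotone_nat_of_le_succ
      intro n
      rw [hb]; exact (he (b n)).2.2.1
    apply hF.seq (fun n => e (b n))
    intro m n hmn
    have h1 : (nx (b m)).1 ≤ e (b n) := by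
      rw [← hb]
      exact (hmono (Nat.succ_le_of_lt hmn)).trans (he (b n)).2.1
    constructor
    · intro h
      exact (he (b m)).2.2.2 _ (he (b n)).1 h h1
    · intro h
      exact (he (b m)).2.2.2 _ (he (b m)).1 le_rfl (h1.trans h)
  let I : P → Set P := fun a => dn {b | b ∈ w ∧ a ≤ b}
  have hI : (I '' Dir).Finite := by
    obtain ⟨s, hs, hbij⟩ := Set.exists_subset_bijOn Dir I
    rw [← hbij.image_eq]
    apply Set.Finite.image
    apply hF
    intro a ha a' ha' hne hle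
    apply hne
    apply hbij.injOn ha ha'
    apply Subset.antisymm
    · rintro p ⟨q, ⟨hq, haq⟩, hpq⟩
      obtain ⟨d, hd, h1, h2⟩ := (hs ha).2 q hq a' (hs ha').1 haq hle
      exact ⟨d, ⟨hd, h2⟩, hpq.trans h1⟩
    · rintro p ⟨q, ⟨hq, haq⟩, hpq⟩
      exact ⟨q, ⟨hq, hle.trans haq⟩, hpq⟩
  apply ((hI.powerset).image sUnion).subset
  rintro L ⟨U, hU, hl, rfl⟩
  have up : ∀ a ∈ U, ∀ b ∈ w, a ≤ b → b ∈ U := by
    intro a ha b hb hab
    by_contra hn
    exact (hl hab ⟨hb, hn⟩).2 ha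
  refine ⟨I '' (Dir ∩ U), image_mono inter_subset_left, ?_⟩
  ext p
  simp only [sUnion_image, mem_iUnion]
  constructor
  · rintro ⟨a, ⟨_, ha⟩, q, ⟨hq, haq⟩, hpq⟩
    exact ⟨q, up a ha q hq haq, hpq⟩
  · rintro ⟨u, hu, hpu⟩
    obtain ⟨a, ha, hua⟩ := cof u (hU hu)
    exact ⟨a, ⟨ha, up u hu a ha.1 hua⟩, a, ⟨ha.1, le_rfl⟩, hpu.trans hua⟩

theorem Rk.na (R : Rk P) {w : Set P} (hw : IsLowerSet w) : ∃ F : Set P, F.Finite ∧ F ⊆ w ∧
    ∀ U, U ⊆ w → IsLowerSet (w \ U) → R.Bm U → (F ∩ U).Nonempty := by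
  have hfin := R.fac.finite_dn hw
  have hH : ∀ L : Set P, ∃ H : Set P, H.Finite ∧ (IsLowerSet L →
      ∀ z, IsLowerSet z → Agree H z L → z ≠ L → R.rho z < R.rho L) := by
    intro L
    by_cases hL : IsLowerSet L
    · obtain ⟨H, h1, h2⟩ := R.a1 L hL
      exact ⟨H, h1, fun _ => h2⟩
    · exact ⟨∅, finite_empty, fun h => absurd h hL⟩
  choose H hH using hH
  refine ⟨(⋃ L ∈ {L | ∃ U, U ⊆ w ∧ IsLowerSet (w \ U) ∧ L = dn U}, H L) ∩ w,
    (hfin.biUnion fun L _ => (hH L).1).inter_of_left _, inter_subset_right, ?_⟩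
  intro U hU hl hB
  by_contra hc
  have hlow : IsLowerSet (dn U \ U) := by
    have : dn U \ U = dn U ∩ (w \ U) := by
      ext p
      exact ⟨fun h => ⟨h.1, dn_subset hw hU h.1, h.2⟩, fun h => ⟨h.1, h.2.2⟩⟩
    rw [this]
    exact (dn_lower U).inter hl
  refine absurd hB.mono (not_le.2 ?_)
  apply (hH (dn U)).2 (dn_lower U) _ hlow
  · intro p hp
    refine ⟨fun h => h.1, fun h => ⟨h, fun hpU => hc ⟨p, ⟨?_, hU hpU⟩, hpU⟩⟩⟩
    simp only [mem_iUnion]
    exact ⟨dn U, ⟨U, hU, hl, rfl⟩, hp⟩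
  · intro e
    obtain ⟨u, hu⟩ := hB.1
    have : u ∈ dn U \ U := by rw [e]; exact subset_dn U hu
    exact this.2 hu

end Pool.Agent.B066
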