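import Pool.Agent.Lib.MP_b066e3_lc.Main

set_option autoImplicit false

/-! The space of upper sets, its clopen algebra and its Cantor-Bendixson rank. -/

namespace Pool.Agent.B066

open Set Filter Topology CantorBendixson

theorem exists_rank {X : Type} [TopologicalSpace X] (h : perfectKernel (univ : Set X) = ∅) :
    ∃ ρ : X → Ordinal.{0}, ∀ x α, x ∈ iteratedDerivedSet (univ : Set X) α ↔ α ≤ ρ x := by
  have hne : ∀ x : X,
      ({α | x ∉ iteratedDerivedSet (univ : Set X) (α + 1)} : Set Ordinal.{0}).Nonempty := by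
    intro x
    have : x ∉ perfectKernel (univ : Set X) := by rw [h]; exact notMem_empty x
    simp only [perfectKernel, mem_iInter, not_forall] at this
    obtain ⟨α, hα⟩ := this
    exact ⟨α, fun h' => hα (iteratedDerivedSet_antitone _ (le_self_add) h')⟩
  have hmin : ∀ x : X, ∃ o : Ordinal.{0}, x ∉ iteratedDerivedSet (univ : Set X) (o + 1) ∧
      ∀ β, β < o → x ∈ iteratedDerivedSet (univ : Set X) (β + 1) := by
    intro x
    obtain ⟨o, ho, hm⟩ := WellFounded.has_min wellFounded_lt _ (hne x)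
    exact ⟨o, ho, fun β hβ => by_contra fun hn => hm β hn hβ⟩
  choose ρ h1 h2 using hmin
  refine ⟨ρ, fun x α => ⟨fun hx => ?_, ?_⟩⟩
  · by_contra hc
    push Not at hc
    exact h1 x (iteratedDerivedSet_antitone _ (Order.add_one_le_of_lt hc) hx)
  · induction α using Ordinal.limitRecOn with
    | zero => intro _; rw [iteratedDerivedSet_zero]; exact mem_univ x
    | add_one a _ => intro ha; exact h2 x a ((lt_add_one a).trans_le ha)
    | limit a ha ih =>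
      intro hle
      rw [iteratedDerivedSet_limit ha, mem_iInter]
      rintro ⟨b, hb⟩
      exact ih b hb (le_trans (le_of_lt hb) hle)

theorem rank_a1 {X : Type} [TopologicalSpace X] {ρ : X → Ordinal.{0}}
    (h : ∀ x α, x ∈ iteratedDerivedSet (univ : Set X) α ↔ α ≤ ρ x) (x : X) :
    ∃ N ∈ 𝓝 x, ∀ z ∈ N, z ≠ x → ρ z < ρ x := by
  have h1 : x ∉ iteratedDerivedSet (univ : Set X) (ρ x + 1) := by
    rw [h]; exact not_le.2 (lt_add_one _)
  rw [iteratedDerivedSet_succ, relDerivedSet_apply] at h1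
  have h2 : x ∉ derivedSet (iteratedDerivedSet (univ : Set X) (ρ x)) :=
    fun h' => h1 ⟨h', (h x _).2 le_rfl⟩
  rw [mem_derivedSet, accPt_iff_nhds] at h2
  push Not at h2
  obtain ⟨N, hN, hz⟩ := h2
  refine ⟨N, hN, fun z hzN hne => ?_⟩
  by_contra hc
  push Not at hc
  exact hne (hz z ⟨hzN, (h z _).2 hc⟩)

theorem rank_r2 {X : Type} [TopologicalSpace X] {ρ : X → Ordinal.{0}}
    (h : ∀ x α, x ∈ iteratedDerivedSet (univ : Set X) α ↔ α ≤ ρ x) (x : X) {β : Ordinal.{0}}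
    (hβ : β < ρ x) {N : Set X} (hN : N ∈ 𝓝 x) : ∃ z ∈ N, z ≠ x ∧ β ≤ ρ z := by
  have h1 : x ∈ iteratedDerivedSet (univ : Set X) (β + 1) := (h x _).2 (Order.add_one_le_of_lt hβ)
  rw [iteratedDerivedSet_succ, relDerivedSet_apply] at h1
  have h2 := h1.1
  rw [mem_derivedSet, accPt_iff_nhds] at h2
  obtain ⟨z, hz, hne⟩ := h2 N hN
  exact ⟨z, hz.1, hne, (h z _).1 hz.2⟩

variable {P : Type} [PartialOrder P]

/-- The poset algebra, as an algebra of sets of upper sets. -/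
def SP (P : Type) [PartialOrder P] : BooleanSubalgebra (Set (UpperSet P)) :=
  BooleanSubalgebra.closure (Set.range fun p : P => {U : UpperSet P | p ∈ U})

/-- Cylinders. -/
def Cyl (H : Set P) (x : UpperSet P) : Set (UpperSet P) := {z | ∀ p ∈ H, (p ∈ z ↔ p ∈ x)}

theorem mem_cyl_self (H : Set P) (x : UpperSet P) : x ∈ Cyl H x := fun _ _ => Iff.rfl

theorem gen_mem (p : P) : {U : UpperSet P | p ∈ U} ∈ SP P :=
  BooleanSubalgebra.subset_closure ⟨p, rfl⟩

theorem SP_dep {a : Set (UpperSet P)} (ha : a ∈ SP P) :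
    ∃ H : Set P, H.Finite ∧ ∀ x, ∀ z ∈ Cyl H x, (z ∈ a ↔ x ∈ a) := by
  induction ha using BooleanSubalgebra.closure_bot_sup_induction with
  | mem a ha =>
    obtain ⟨p, rfl⟩ := ha
    exact ⟨{p}, finite_singleton p, fun x z hz => hz p rfl⟩
  | bot => exact ⟨∅, finite_empty, fun x z _ => Iff.rfl⟩
  | sup a _ b _ iha ihb =>
    obtain ⟨H, hH, h⟩ := iha
    obtain ⟨H', hH', h'⟩ := ihb
    exact ⟨H ∪ H', hH.union hH', fun x z hz =>
      or_congr (h x z fun p hp => hz p (Or.inl hp)) (h' x z fun p hp => hz p (Or.inr hp))⟩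
  | compl a _ iha =>
    obtain ⟨H, hH, h⟩ := iha
    exact ⟨H, hH, fun x z hz => not_congr (h x z hz)⟩

theorem cyl_mem {H : Set P} (hH : H.Finite) (x : UpperSet P) : Cyl H x ∈ SP P := by
  have : Cyl H x = ⨅ p ∈ H, {z : UpperSet P | p ∈ z ↔ p ∈ x} := by
    ext z
    simp [Cyl]
  rw [this]
  apply BooleanSubalgebra.biInf_mem hH
  intro p _
  by_cases hp : p ∈ x
  · have : {z : UpperSet P | p ∈ z ↔ p ∈ x} = {z : UpperSet P | p ∈ z} := by
      ext z; simp [hp]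
    rw [this]; exact gen_mem p
  · have : {z : UpperSet P | p ∈ z ↔ p ∈ x} = {z : UpperSet P | p ∈ z}ᶜ := by
      ext z; simp [hp]
    rw [this]; exact BooleanSubalgebra.compl_mem (gen_mem p)

theorem ultra_lim {ι : Type} (U : Ultrafilter ι) (f : ι → UpperSet P) :
    ∃ x : UpperSet P, ∀ H : Set P, H.Finite → ∀ᶠ i in (U : Filter ι), f i ∈ Cyl H x := by
  refine ⟨⟨{p | ∀ᶠ i in (U : Filter ι), p ∈ f i}, fun p q hpq hp =>
    Eventually.mono hp fun i h => (f i).upper hpq h⟩, fun H hH => ?_⟩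
  show ∀ᶠ i in (U : Filter ι), ∀ p ∈ H, (p ∈ f i ↔ ∀ᶠ i in (U : Filter ι), p ∈ f i)
  rw [eventually_all_finite hH]
  intro p _
  by_cases hp : ∀ᶠ i in (U : Filter ι), p ∈ f i
  · exact hp.mono fun i h => ⟨fun _ => hp, fun _ => h⟩
  · exact (Ultrafilter.eventually_not.2 hp).mono fun i h =>
      ⟨fun h' => absurd h' h, fun h' => absurd h' hp⟩

/-- Compactness. -/
theorem cover {a : Set (UpperSet P)}
    (ha : ∀ x, x ∉ a → ∃ H : Set P, H.Finite ∧ ∀ z ∈ Cyl H x, z ∉ a)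
    (b : UpperSet P → Set (UpperSet P)) (hb : ∀ x ∈ a, b x ∈ SP P ∧ x ∈ b x) :
    ∃ T : Set (UpperSet P), T.Finite ∧ T ⊆ a ∧ ∀ z ∈ a, ∃ x ∈ T, z ∈ b x := by
  by_contra hc
  push Not at hc
  have hj : ∀ j : Finset (UpperSet P), ∃ z ∈ a, ∀ x ∈ (j : Set (UpperSet P)) ∩ a, z ∉ b x :=
    fun j => hc _ (j.finite_toSet.inter_of_left _) inter_subset_right
  choose f hfa hf using hj
  obtain ⟨U, hU⟩ := exists_ultra_finset (UpperSet P)
  obtain ⟨x, hx⟩ := ultra_lim U f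
  have hxa : x ∈ a := by
    by_contra hn
    obtain ⟨H, hH, h⟩ := ha x hn
    obtain ⟨j, hj⟩ := (hx H hH).exists
    exact h _ hj (hfa j)
  obtain ⟨H, hH, h⟩ := SP_dep (hb x hxa).1
  obtain ⟨j, h1, h2⟩ := ((hx H hH).and (hU {x} (finite_singleton x))).exists
  exact hf j x ⟨h2 rfl, hxa⟩ ((h x _ h1).2 (hb x hxa).2)

theorem cover' {a : Set (UpperSet P)} (ha : a ∈ SP P)
    (b : UpperSet P → Set (UpperSet P)) (hb : ∀ x ∈ a, b x ∈ SP P ∧ x ∈ b x) :
    ∃ T : Set (UpperSet P), T.Finite ∧ T ⊆ a ∧ ∀ z ∈ a, ∃ x ∈ T, z ∈ b x := by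
  obtain ⟨H, hH, h⟩ := SP_dep ha
  exact cover (fun x hx => ⟨H, hH, fun z hz hza => hx ((h x z hz).1 hza)⟩) b hb

theorem mem_SP_of_loc {a : Set (UpperSet P)}
    (ha : ∀ x, ∃ H : Set P, H.Finite ∧ ∀ z ∈ Cyl H x, (z ∈ a ↔ x ∈ a)) : a ∈ SP P := by
  choose H hH h using ha
  obtain ⟨T, hT, hTa, hc⟩ := cover (a := a)
    (fun x hx => ⟨H x, hH x, fun z hz hza => hx ((h x z hz).1 hza)⟩)
    (fun x => Cyl (H x) x) (fun x _ => ⟨cyl_mem (hH x) x, mem_cyl_self _ _⟩)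
  have : a = ⨆ x ∈ T, Cyl (H x) x := by
    ext z
    simp only [iSup_eq_iUnion, mem_iUnion]
    constructor
    · intro hz
      obtain ⟨x, hx, hzx⟩ := hc z hz
      exact ⟨x, hx, hzx⟩
    · rintro ⟨x, hx, hzx⟩
      exact (h x z hzx).2 (hTa hx)
  rw [this]
  exact BooleanSubalgebra.biSup_mem hT fun x _ => cyl_mem (hH x) x

/-- A subalgebra that separates points is everything. -/
theorem eq_of_separates {L : BooleanSubalgebra (Set (UpperSet P))} (hL : L ≤ SP P)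
    (hs : ∀ x y : UpperSet P, x ≠ y → ∃ b ∈ L, x ∈ b ∧ y ∉ b) : L = SP P := by
  apply le_antisymm hL
  intro a ha
  have h1 : ∀ x, ∃ b ∈ L, x ∈ a → x ∈ b ∧ b ⊆ a := by
    intro x
    by_cases hx : x ∈ a
    swap
    · exact ⟨⊥, BooleanSubalgebra.bot_mem, fun h => absurd h hx⟩
    have h2 : ∀ y, ∃ c ∈ L, y ∈ aᶜ → y ∈ c ∧ x ∉ c := by
      intro y
      by_cases hy : y ∈ aᶜ
      · obtain ⟨c, hc, h⟩ := hs y x (fun e => hy (e ▸ hx))
        exact ⟨c, hc, fun _ => h⟩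
      · exact ⟨⊥, BooleanSubalgebra.bot_mem, fun h => absurd h hy⟩
    choose c hcL hc using h2
    obtain ⟨T, hT, hTa, hcov⟩ := cover' (BooleanSubalgebra.compl_mem ha) c
      fun y hy => ⟨hL (hcL y), (hc y hy).1⟩
    refine ⟨(⨆ y ∈ T, c y)ᶜ, BooleanSubalgebra.compl_mem
      (BooleanSubalgebra.biSup_mem hT fun y _ => hcL y), fun _ => ⟨?_, ?_⟩⟩
    · simp only [iSup_eq_iUnion, mem_compl_iff, mem_iUnion, not_exists]
      exact fun y hy => (hc y (hTa hy)).2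
    · intro z hz
      simp only [iSup_eq_iUnion, mem_compl_iff, mem_iUnion, not_exists] at hz
      by_contra hn
      obtain ⟨y, hy, hzy⟩ := hcov z hn
      exact hz y hy hzy
  choose b hbL hb using h1
  obtain ⟨T, hT, hTa, hcov⟩ := cover' ha b fun x hx => ⟨hL (hbL x), (hb x hx).1⟩
  have : a = ⨆ x ∈ T, b x := by
    ext z
    simp only [iSup_eq_iUnion, mem_iUnion]
    constructor
    · intro hz
      obtain ⟨x, hx, hzx⟩ := hcov z hz
      exact ⟨x, hx, hzx⟩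
    · rintro ⟨x, hx, hzx⟩
      exact (hb x (hTa hx)).2 hzx
  rw [this]
  exact BooleanSubalgebra.biSup_mem hT fun x _ => hbL x

/-- The topology generated by the poset algebra. -/
@[reducible] def tau (P : Type) [PartialOrder P] : TopologicalSpace (UpperSet P) :=
  TopologicalSpace.generateFrom (SP P : Set (Set (UpperSet P)))

theorem mem_nhds_tau {x : UpperSet P} {N : Set (UpperSet P)} :
    N ∈ @nhds _ (tau P) x ↔ ∃ H : Set P, H.Finite ∧ Cyl H x ⊆ N := by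
  letI := tau P
  constructor
  · intro hN
    obtain ⟨V, hVN, hV, hx⟩ := mem_nhds_iff.1 hN
    have : ∀ V, TopologicalSpace.GenerateOpen (SP P : Set (Set (UpperSet P))) V →
        ∀ x ∈ V, ∃ H : Set P, H.Finite ∧ Cyl H x ⊆ V := by
      intro V hV
      induction hV with
      | basic s hs =>
        intro x hx
        obtain ⟨H, hH, h⟩ := SP_dep hs
        exact ⟨H, hH, fun z hz => (h x z hz).2 hx⟩
      | univ => exact fun x _ => ⟨∅, finite_empty, subset_univ _⟩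
      | inter s t _ _ ihs iht =>
        intro x hx
        obtain ⟨H, hH, h⟩ := ihs x hx.1
        obtain ⟨H', hH', h'⟩ := iht x hx.2
        exact ⟨H ∪ H', hH.union hH', fun z hz =>
          ⟨h fun p hp => hz p (Or.inl hp), h' fun p hp => hz p (Or.inr hp)⟩⟩
      | sUnion S _ ih =>
        rintro x ⟨s, hs, hx⟩
        obtain ⟨H, hH, h⟩ := ih s hs x hx
        exact ⟨H, hH, h.trans (subset_sUnion_of_mem hs)⟩
    obtain ⟨H, hH, h⟩ := this V hV x hx
    exact ⟨H, hH, h.trans hVN⟩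
  · rintro ⟨H, hH, h⟩
    exact mem_of_superset (IsOpen.mem_nhds
      (TopologicalSpace.isOpen_generateFrom_of_mem (cyl_mem hH x)) (mem_cyl_self H x)) h

/-- Superatomicity in ideal form. -/
def Superatomic (S : BooleanSubalgebra (Set (UpperSet P))) : Prop :=
  ∀ I : Set (Set (UpperSet P)), I ⊆ (S : Set (Set (UpperSet P))) → ∅ ∈ I →
    (∀ a ∈ I, ∀ b ∈ S, b ⊆ a → b ∈ I) → (∀ a ∈ I, ∀ b ∈ I, a ∪ b ∈ I) →
    ∀ b ∈ S, b ∉ I → ∃ a ∈ S, a ⊆ b ∧ a ∉ I ∧ ∀ c ∈ S, c ⊆ a → c ∈ I ∨ a \ c ∈ I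

theorem kernel_empty (h : Superatomic (SP P)) :
    @perfectKernel _ (tau P) (univ : Set (UpperSet P)) = ∅ := by
  letI := tau P
  by_contra hne
  set Y := perfectKernel (univ : Set (UpperSet P)) with hY
  have hp : Preperfect Y := (perfect_perfectKernel isClosed_univ).acc
  obtain ⟨a, ha, _, haI, hat⟩ := h {a | a ∈ SP P ∧ a ∩ Y = ∅} (fun a ha => ha.1)
    ⟨BooleanSubalgebra.bot_mem, empty_inter _⟩
    (fun a ha b hb hba => ⟨hb, subset_eq_empty (inter_subset_inter_left _ hba) ha.2⟩)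
    (fun a ha b hb => ⟨BooleanSubalgebra.sup_mem ha.1 hb.1, by
      rw [union_inter_distrib_right, ha.2, hb.2, union_empty]⟩)
    univ BooleanSubalgebra.top_mem (fun h' => hne (by rw [← h'.2, univ_inter]))
  obtain ⟨x, hx⟩ : (a ∩ Y).Nonempty := nonempty_iff_ne_empty.2 fun e => haI ⟨ha, e⟩
  have haN : a ∈ 𝓝 x :=
    IsOpen.mem_nhds (TopologicalSpace.isOpen_generateFrom_of_mem ha) hx.1
  obtain ⟨z, hz, hzx⟩ := preperfect_iff_nhds.1 hp x hx.2 a haN
  obtain ⟨p, hp⟩ : ∃ p, ¬ (p ∈ z ↔ p ∈ x) := by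
    by_contra hc
    push Not at hc
    exact hzx (UpperSet.ext (Set.ext hc))
  have key : ∀ u v : UpperSet P, u ∈ a ∩ Y → v ∈ a ∩ Y → p ∈ u → p ∉ v → False := by
    intro u v hu hv h1 h2
    rcases hat (a ∩ {U | p ∈ U}) (BooleanSubalgebra.inf_mem ha (gen_mem p)) inter_subset_left
      with h3 | h3
    · have : u ∈ (a ∩ {U | p ∈ U}) ∩ Y := ⟨⟨hu.1, h1⟩, hu.2⟩
      rw [h3.2] at this
      exact this
    · have : v ∈ (a \ (a ∩ {U | p ∈ U})) ∩ Y := ⟨⟨hv.1, fun h' => h2 h'.2⟩, hv.2⟩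
      rw [h3.2] at this
      exact this
  by_cases h1 : p ∈ z
  · exact key z x hz hx h1 fun h2 => hp ⟨fun _ => h2, fun _ => h1⟩
  · by_cases h2 : p ∈ x
    · exact key x z hx hz h2 h1
    · exact hp ⟨fun h' => absurd h' h1, fun h' => absurd h' h2⟩

theorem exists_canonical (h : Superatomic (SP P)) :
    ∃ (ρ : UpperSet P → Ordinal.{0}) (U : UpperSet P → Set (UpperSet P)),
      (∀ x α, x ∈ @iteratedDerivedSet _ (tau P) (univ : Set (UpperSet P)) α ↔ α ≤ ρ x) ∧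
      (∀ y, U y ∈ SP P) ∧ (∀ y, y ∈ U y) ∧ (∀ y, ∀ z ∈ U y, U z ⊆ U y) ∧
      ∀ y, ∀ z ∈ U y, z ≠ y → ρ z < ρ y := by
  classical
  letI := tau P
  obtain ⟨ρ, hρ⟩ := exists_rank (kernel_empty h)
  let rho : Set P → Ordinal.{0} := fun z => if hz : IsUpperSet z then ρ ⟨z, hz⟩ else 0
  have hrho : ∀ z (hz : IsUpperSet z), rho z = ρ ⟨z, hz⟩ := fun z hz => dif_pos hz
  let R : Rk Pᵒᵈ :=
    { rho := rho
      a1 := by
        intro x hx
        obtain ⟨N, hN, h1⟩ := rank_a1 hρ ⟨x, hx⟩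
        obtain ⟨H, hH, h2⟩ := mem_nhds_tau.1 hN
        refine ⟨H, hH, fun z hz hag hne => ?_⟩
        rw [hrho z hz, hrho x hx]
        exact h1 ⟨z, hz⟩ (h2 hag) fun e => hne (congrArg SetLike.coe e)
      r2 := by
        intro x hx β hβ H hH
        rw [hrho x hx] at hβ
        obtain ⟨z, hz, hne, hb⟩ := rank_r2 hρ ⟨x, hx⟩ hβ
          (mem_nhds_tau.2 ⟨H, hH, Subset.rfl⟩)
        refine ⟨(z : Set P), z.upper, hz, fun e => hne (UpperSet.ext e), ?_⟩
        rw [hrho _ z.upper]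
        exact hb }
  obtain ⟨U, u1, u2, u3, u4⟩ := R.exists_nbhd
  refine ⟨ρ, fun y => {z | U (y : Set P) (z : Set P)}, hρ, fun y => ?_, fun y => u1 _,
    fun y z hz w hw => u2 _ _ _ z.upper hz hw, fun y z hz hne => ?_⟩
  · apply mem_SP_of_loc
    intro x
    obtain ⟨H, hH, h1⟩ := u4 (y : Set P) (x : Set P) x.upper
    exact ⟨H, hH, fun z hz => h1 _ z.upper hz⟩
  · have := u3 _ _ y.upper z.upper hz fun e => hne (UpperSet.ext e)
    have e1 : R.rho (z : Set P) = ρ z := hrho _ z.upper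
    have e2 : R.rho (y : Set P) = ρ y := hrho _ y.upper
    rwa [e1, e2] at this

theorem canonical (h : Superatomic (SP P)) :
    ∃ G : Set (Set (UpperSet P)), G ⊆ (SP P : Set (Set (UpperSet P))) ∧
      (∀ x ∈ G, ∀ y ∈ G, x ∪ y ∈ G ∧ x ∩ y ∈ G) ∧
      (¬ ∃ f : ℕ → Set (UpperSet P), ∀ n, f n ∈ G ∧ f (n + 1) ⊂ f n) ∧
      BooleanSubalgebra.closure G = SP P ∧
      ∀ x : UpperSet P, ∃ α : Ordinal.{0}, ∃ g ∈ G,
        g ∩ @iteratedDerivedSet _ (tau P) (univ : Set (UpperSet P)) α = {x} := by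
  obtain ⟨ρ, U, hρ, u0, u1, u2, u3⟩ := exists_canonical h
  have hU : ∀ y, U y ∈ {g | g ∈ SP P ∧ ∀ y ∈ g, U y ⊆ g} := fun y => ⟨u0 y, u2 y⟩
  refine ⟨{g | g ∈ SP P ∧ ∀ y ∈ g, U y ⊆ g}, fun g hg => hg.1, ?_, ?_, ?_, ?_⟩
  · intro a ha b hb
    refine ⟨⟨BooleanSubalgebra.sup_mem ha.1 hb.1, ?_⟩, BooleanSubalgebra.inf_mem ha.1 hb.1, ?_⟩
    · rintro y (hy | hy)
      · exact (ha.2 y hy).trans subset_union_left
      · exact (hb.2 y hy).trans subset_union_right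
    · exact fun y hy => subset_inter (ha.2 y hy.1) (hb.2 y hy.2)
  · rintro ⟨f, hf⟩
    have hy : ∀ n, ∃ y, y ∈ f n ∧ y ∉ f (n + 1) := fun n => exists_of_ssubset (hf n).2
    choose y hy1 hy2 using hy
    have hanti : Antitone f := antitone_nat_of_succ_le fun n => (hf n).2.subset
    obtain ⟨x, hx⟩ := ultra_lim (Ultrafilter.of atTop : Ultrafilter ℕ) y
    have hxf : ∀ n, x ∈ f n := by
      intro n
      obtain ⟨H, hH, h1⟩ := SP_dep (hf n).1.1
      obtain ⟨k, hk1, hk2⟩ := ((hx H hH).and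
        (Ultrafilter.of_le (atTop : Filter ℕ) (eventually_ge_atTop n))).exists
      exact (h1 x _ hk1).1 (hanti hk2 (hy1 k))
    obtain ⟨H, hH, h1⟩ := SP_dep (u0 x)
    obtain ⟨k, hk⟩ := (hx H hH).exists
    exact hy2 k ((hf (k + 1)).1.2 x (hxf _) ((h1 x _ hk).2 (u1 x)))
  · apply eq_of_separates (BooleanSubalgebra.closure_le.2 fun g hg => hg.1)
    intro x y hne
    by_cases hy : y ∈ U x
    · refine ⟨(U y)ᶜ, BooleanSubalgebra.compl_mem (BooleanSubalgebra.subset_closure (hU y)),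
        fun hx => ?_, fun h' => h' (u1 y)⟩
      exact absurd (u3 x y hy hne.symm) (not_lt.2 (u3 y x hx hne).le)
    · exact ⟨U x, BooleanSubalgebra.subset_closure (hU x), u1 x, hy⟩
  · intro x
    refine ⟨ρ x, U x, hU x, ?_⟩
    ext z
    constructor
    · rintro ⟨h1, h2⟩
      by_contra hne
      exact absurd (u3 x z h1 hne) (not_lt.2 ((hρ z _).1 h2))
    · rintro rfl
      exact ⟨u1 z, (hρ z _).2 le_rfl⟩

end Pool.Agent.B066
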